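import Pool.Agent.CGQF.HeckeA

/-!
# The action of the Hecke algebra on cohomology
-/

noncomputable section

namespace Pool.Agent.CGQF

open CategoryTheory NumberField
open scoped IsMulCommutative
open Pool.Agent.CG2F (Pr Pl Above Fv Ov LG GZ PlAbove Ab Idx HeckeAlg cosets cosets_finite)

variable {F : Type} [Field F] [NumberField F] {q : QData F} {p : Pr} {S : Finset Pr}
variable {O : Type} [CommRing O] {W : Type} [AddCommGroup W] [Module O W]

theorem heckeLin_comm (L : Level q p S) (σ : Coef L O W) (s t : Idx F S) :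
    heckeLin L σ s * heckeLin L σ t = heckeLin L σ t * heckeLin L σ s := by
  apply LinearMap.ext
  intro f
  exact LinearMap.congr_fun
    (CGQ.heckeLin_comm (O := O) (W := W) L.old.Kf (L.old.rep σ) (L.old.unram σ) s t) f

theorem heckeCoh_comm (L : Level q p S) (σ : Coef L O W) (i : ℕ) (s t : Idx F S) :
    heckeCoh L σ i s * heckeCoh L σ i t = heckeCoh L σ i t * heckeCoh L σ i s := by
  have h1 : heckeHom L σ s ≫ heckeHom L σ t = heckeHom L σ t ≫ heckeHom L σ s := by
    apply Rep.hom_ext
    apply Representation.IntertwiningMap.ext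
    apply LinearMap.ext
    intro f
    exact (LinearMap.congr_fun (heckeLin_comm L σ s t) f).symm
  have h2 := congrArg (fun a => ((groupCohomology.functor O (DG q) i).map a).hom) h1
  simp only [CategoryTheory.Functor.map_comp, ModuleCat.hom_comp] at h2
  exact h2.symm

/-- The subalgebra generated by the Hecke operators. -/
def heckeSub (L : Level q p S) (σ : Coef L O W) (i : ℕ) : Subalgebra O (EndH L σ i) :=
  Algebra.adjoin O (Set.range (heckeCoh L σ i))

theorem heckeSub_comm (L : Level q p S) (σ : Coef L O W) (i : ℕ) :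
    IsMulCommutative (heckeSub L σ i) :=
  Algebra.isMulCommutative_adjoin O (by
    rintro _ ⟨s, rfl⟩ _ ⟨t, rfl⟩
    exact heckeCoh_comm L σ i s t)

theorem heckeCoh_mem (L : Level q p S) (σ : Coef L O W) (i : ℕ) (t : Idx F S) :
    heckeCoh L σ i t ∈ heckeSub L σ i := Algebra.subset_adjoin ⟨t, rfl⟩

/-- The Hecke operators commute, so there is a unique homomorphism of algebras from the Hecke
algebra to the algebra of endomorphisms which maps the generators to the Hecke operators. -/
theorem exists_actHom (L : Level q p S) (σ : Coef L O W) (i : ℕ) :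
    ∃! Φ : HeckeAlg F S O →ₐ[O] EndH L σ i,
      ∀ t : Idx F S, Φ (Pool.Agent.CG2F.HeckeAlg.T O t) = heckeCoh L σ i t := by
  have := heckeSub_comm L σ i
  refine ⟨(heckeSub L σ i).val.comp
    (MvPolynomial.aeval (fun t => ⟨heckeCoh L σ i t, heckeCoh_mem L σ i t⟩) :
      HeckeAlg F S O →ₐ[O] heckeSub L σ i), ?_, ?_⟩
  · intro t
    have h : (MvPolynomial.aeval (fun t => ⟨heckeCoh L σ i t, heckeCoh_mem L σ i t⟩) :
      HeckeAlg F S O →ₐ[O] heckeSub L σ i) (Pool.Agent.CG2F.HeckeAlg.T O t) =
        ⟨heckeCoh L σ i t, heckeCoh_mem L σ i t⟩ := MvPolynomial.aeval_X _ _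
    exact congrArg Subtype.val h
  · intro Φ h
    apply MvPolynomial.algHom_ext
    intro t
    refine (h t).trans ?_
    have h : (MvPolynomial.aeval (fun t => ⟨heckeCoh L σ i t, heckeCoh_mem L σ i t⟩) :
      HeckeAlg F S O →ₐ[O] heckeSub L σ i) (MvPolynomial.X t) =
        ⟨heckeCoh L σ i t, heckeCoh_mem L σ i t⟩ := MvPolynomial.aeval_X _ _
    exact (congrArg Subtype.val h).symm

end Pool.Agent.CGQF
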