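import Pool.Agent.CG2F.Hecke
import Pool.Agent.CGQ.Lev

/-!
# The cohomology of the locally symmetric spaces of the multiplicative group of a quaternion
algebra over a number field: the statement

The definitions of this file repeat those of `Pool.Agent.CGQ.Sys`, `DDefs` and `Lev` for the case
at hand, with named types, so that they can be displayed in short form. The definitions of
`Pool.Agent.CG2F` which concern only the number field are used.
-/

noncomputable section

namespace Pool.Agent.CGQF

open Matrix NumberField IsDedekindDomain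
open Pool.Agent.CG2F (Pr Pl Above Fv Ov LG GZ PlAbove Ab emb)

/-- The quaternion algebra over the commutative ring `R` with the basis `1, i, j, ij` and
`i² = a`, `j² = b`, `ji = -ij`. -/
def Quat (R : Type) [CommRing R] (a b : R) : Type := QuaternionAlgebra R a 0 b

section

variable {R : Type} [CommRing R] {a b : R}

instance : Ring (Quat R a b) := (inferInstance : Ring (QuaternionAlgebra R a 0 b))

instance : Algebra R (Quat R a b) := (inferInstance : Algebra R (QuaternionAlgebra R a 0 b))

/-- The topology of `R⁴`. -/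
instance [TopologicalSpace R] : TopologicalSpace (Quat R a b) :=
  TopologicalSpace.induced (QuaternionAlgebra.equivTuple a 0 b) inferInstance

/-- The element `x + y i + z j + t ij`. -/
def Quat.mk (x y z t : R) : Quat R a b := QuaternionAlgebra.mk x y z t

/-- The coordinates of an element. -/
def Quat.c0 (x : Quat R a b) : R := QuaternionAlgebra.re x

/-- The coordinates of an element. -/
def Quat.c1 (x : Quat R a b) : R := QuaternionAlgebra.imI x

/-- The coordinates of an element. -/
def Quat.c2 (x : Quat R a b) : R := QuaternionAlgebra.imJ x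

/-- The coordinates of an element. -/
def Quat.c3 (x : Quat R a b) : R := QuaternionAlgebra.imK x

/-- The reduced norm. -/
def Quat.nrd (x : Quat R a b) : R :=
  x.c0 ^ 2 - a * x.c1 ^ 2 - b * x.c2 ^ 2 + a * b * x.c3 ^ 2

variable {R' : Type} [CommRing R']

/-- The homomorphism of quaternion algebras given by a homomorphism of the rings of scalars. -/
def Quat.map (f : R →+* R') (x : Quat R a b) : Quat R' (f a) (f b) :=
  Quat.mk (f x.c0) (f x.c1) (f x.c2) (f x.c3)

theorem Quat.map_mul (f : R →+* R') (x y : Quat R a b) :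
    Quat.map f (x * y) = Quat.map f x * Quat.map f y := (CGQ.qmap f a b).map_mul' x y

theorem Quat.map_one (f : R →+* R') : Quat.map f (1 : Quat R a b) = 1 :=
  (CGQ.qmap f a b).map_one'

end

/-- Two nonzero elements `a`, `b` of the ring of integers of the number field `F`: they define the
quaternion algebra `D` over `F` with `i² = a`, `j² = b`. Every quaternion algebra over `F` is of
this form. -/
structure QData (F : Type) [Field F] [NumberField F] where
  /-- the square of `i` -/
  a : 𝓞 F
  /-- the square of `j` -/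
  b : 𝓞 F
  a_ne : a ≠ 0
  b_ne : b ≠ 0

variable {F : Type} [Field F] [NumberField F]

/-- The same data in the notation of `Pool.Agent.CGQ`. -/
def QData.old (q : QData F) : CGQ.Qd F := ⟨q.a, q.b, q.a_ne, q.b_ne⟩

/-- The square of `i` as an element of `F`. -/
def QData.aF (q : QData F) : F := (q.a : F)

/-- The square of `j` as an element of `F`. -/
def QData.bF (q : QData F) : F := (q.b : F)

/-- The quaternion algebra `D` over `F`. -/
def QData.D (q : QData F) : Type := Quat F q.aF q.bF

instance (q : QData F) : Ring q.D := (inferInstance : Ring (Quat F q.aF q.bF))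

/-- The reduced norm of `D`. -/
def QData.nrd {q : QData F} (x : q.D) : F := Quat.nrd x

/-- `D` is a division algebra. -/
def QData.IsDivision (q : QData F) : Prop := ∀ x : q.D, x ≠ 0 → ∃ y : q.D, x * y = 1

/-- The square of `i` as an element of `F_v`. -/
def QData.av (q : QData F) (v : Pl F) : Fv v := emb v q.aF

/-- The square of `j` as an element of `F_v`. -/
def QData.bv (q : QData F) (v : Pl F) : Fv v := emb v q.bF

/-- The algebra `D_v = D ⊗ F_v`. -/
def QData.DV (q : QData F) (v : Pl F) : Type := Quat (Fv v) (q.av v) (q.bv v)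

instance (q : QData F) (v : Pl F) : Ring (q.DV v) :=
  (inferInstance : Ring (Quat (Fv v) (q.av v) (q.bv v)))

instance (q : QData F) (v : Pl F) : Algebra (Fv v) (q.DV v) :=
  (inferInstance : Algebra (Fv v) (Quat (Fv v) (q.av v) (q.bv v)))

instance (q : QData F) (v : Pl F) : TopologicalSpace (q.DV v) :=
  (inferInstance : TopologicalSpace (Quat (Fv v) (q.av v) (q.bv v)))

/-- The embedding of `D` in `D_v`. -/
def QData.toV (q : QData F) (v : Pl F) (x : q.D) : q.DV v := Quat.map (emb v) x

theorem QData.toV_mul (q : QData F) (v : Pl F) (x y : q.D) :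
    q.toV v (x * y) = q.toV v x * q.toV v y := Quat.map_mul (emb v) x y

theorem QData.toV_one (q : QData F) (v : Pl F) : q.toV v 1 = 1 := Quat.map_one (emb v)

/-- The embedding of the ring of integers of `F` in `O_v`. -/
def embI (v : Pl F) : 𝓞 F →+* Ov v :=
  algebraMap (𝓞 F) (HeightOneSpectrum.adicCompletionIntegers F v)

/-- The square of `i` as an element of `O_v`. -/
def QData.ao (q : QData F) (v : Pl F) : Ov v := embI v q.a

/-- The square of `j` as an element of `O_v`. -/
def QData.bo (q : QData F) (v : Pl F) : Ov v := embI v q.b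

/-- The order `O_v + O_v i + O_v j + O_v ij`. -/
def QData.DO (q : QData F) (v : Pl F) : Type := Quat (Ov v) (q.ao v) (q.bo v)

instance (q : QData F) (v : Pl F) : Ring (q.DO v) :=
  (inferInstance : Ring (Quat (Ov v) (q.ao v) (q.bo v)))

/-- The inclusion of the order in `D_v`. -/
def QData.incl (q : QData F) (v : Pl F) (x : q.DO v) : q.DV v := Quat.map (Ov.incl v) x

theorem QData.incl_mul (q : QData F) (v : Pl F) (x y : q.DO v) :
    q.incl v (x * y) = q.incl v x * q.incl v y := Quat.map_mul (Ov.incl v) x y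

theorem QData.incl_one (q : QData F) (v : Pl F) : q.incl v 1 = 1 := Quat.map_one (Ov.incl v)

/-- The group `Dˣ`. -/
def DG (q : QData F) : Type := (q.D)ˣ

instance (q : QData F) : Group (DG q) := (inferInstance : Group (q.D)ˣ)

/-- The underlying element of `D`. -/
def DG.val {q : QData F} (γ : DG q) : q.D := Units.val γ

theorem DG.mul_inv' {q : QData F} (γ : DG q) : γ.val * γ⁻¹.val = 1 := Units.mul_inv γ

theorem DG.inv_mul' {q : QData F} (γ : DG q) : γ⁻¹.val * γ.val = 1 := Units.inv_mul γ

/-- The group `D_vˣ`. -/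
def LD (q : QData F) (v : Pl F) : Type := (q.DV v)ˣ

instance (q : QData F) (v : Pl F) : Group (LD q v) := (inferInstance : Group (q.DV v)ˣ)

/-- The usual topology of `D_vˣ`: `D_v` has the product topology of `F_v⁴`, and the map
`x ↦ (x, x⁻¹)` from `D_vˣ` to `D_v × D_v` is an embedding. -/
instance (q : QData F) (v : Pl F) : TopologicalSpace (LD q v) :=
  (inferInstance : TopologicalSpace (q.DV v)ˣ)

/-- The underlying element of `D_v`. -/
def LD.val {q : QData F} {v : Pl F} (g : LD q v) : q.DV v := Units.val g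

theorem LD.mul_inv' {q : QData F} {v : Pl F} (g : LD q v) : g.val * g⁻¹.val = 1 := Units.mul_inv g

theorem LD.inv_mul' {q : QData F} {v : Pl F} (g : LD q v) : g⁻¹.val * g.val = 1 := Units.inv_mul g

/-- The element of `D_vˣ` given by an element of `D_v` and its inverse. -/
def LD.mk {q : QData F} {v : Pl F} (x y : q.DV v) (h : x * y = 1) (h' : y * x = 1) : LD q v :=
  Units.mk x y h h'

/-- The unit group of the order `O_v + O_v i + O_v j + O_v ij`. -/
def DOU (q : QData F) (v : Pl F) : Type := (q.DO v)ˣ

/-- The underlying element of a unit of the order. -/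
def DOU.val {q : QData F} {v : Pl F} (x : DOU q v) : q.DO v := Units.val x

/-- The inverse of a unit of the order. -/
def DOU.inv {q : QData F} {v : Pl F} (x : DOU q v) : q.DO v := Units.inv x

theorem DOU.h1 {q : QData F} {v : Pl F} (x : DOU q v) :
    q.incl v x.val * q.incl v x.inv = 1 := by
  rw [← q.incl_mul, DOU.val, DOU.inv, Units.val_inv, q.incl_one]

theorem DOU.h2 {q : QData F} {v : Pl F} (x : DOU q v) :
    q.incl v x.inv * q.incl v x.val = 1 := by
  rw [← q.incl_mul, DOU.val, DOU.inv, Units.inv_val, q.incl_one]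

/-- The inclusion of the unit group of the order in `D_vˣ`. -/
def DOU.toLD {q : QData F} {v : Pl F} (x : DOU q v) : LD q v :=
  LD.mk (q.incl v x.val) (q.incl v x.inv) x.h1 x.h2

/-- The element `g` of `D_vˣ` is a unit of the order `O_v + O_v i + O_v j + O_v ij`. -/
def IsUnitD {q : QData F} {v : Pl F} (g : LD q v) : Prop := ∃ x : DOU q v, x.toLD = g

theorem isUnitD_mul {q : QData F} {v : Pl F} {a b : LD q v} (ha : IsUnitD a) (hb : IsUnitD b) :
    IsUnitD (a * b) := (CGQ.BZ q.old v).mul_mem' ha hb

theorem isUnitD_one {q : QData F} {v : Pl F} : IsUnitD (1 : LD q v) := (CGQ.BZ q.old v).one_mem'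

theorem isUnitD_inv {q : QData F} {v : Pl F} {a : LD q v} (ha : IsUnitD a) : IsUnitD a⁻¹ :=
  (CGQ.BZ q.old v).inv_mem' ha

/-- The unit group of the order `O_v + O_v i + O_v j + O_v ij`, a subgroup of `D_vˣ`. -/
def DZ (q : QData F) (v : Pl F) : Subgroup (LD q v) where
  carrier := {g | IsUnitD g}
  mul_mem' := isUnitD_mul
  one_mem' := isUnitD_one
  inv_mem' := isUnitD_inv

/-- The families of elements of the groups `D_vˣ`. -/
def Fam (q : QData F) : Type := ∀ v : Pl F, LD q v

instance (q : QData F) : Group (Fam q) := (inferInstance : Group (∀ v : Pl F, LD q v))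

/-- Almost all members of the family `g` are units of `O_v + O_v i + O_v j + O_v ij`. -/
def AlmostInt {q : QData F} (g : Fam q) : Prop := {v : Pl F | g v ∉ DZ q v}.Finite

variable {q : QData F}

theorem almostInt_mul {a b : Fam q} (ha : AlmostInt a) (hb : AlmostInt b) : AlmostInt (a * b) :=
  (CGQ.sysD q.old).A.mul_mem' ha hb

theorem almostInt_one : AlmostInt (1 : Fam q) := (CGQ.sysD q.old).A.one_mem'

theorem almostInt_inv {a : Fam q} (ha : AlmostInt a) : AlmostInt a⁻¹ :=
  (CGQ.sysD q.old).A.inv_mem' ha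

/-- The subgroup of the families almost all of whose members are in `DZ`. -/
def GA (q : QData F) : Subgroup (Fam q) where
  carrier := {g | AlmostInt g}
  mul_mem' := almostInt_mul
  one_mem' := almostInt_one
  inv_mem' := almostInt_inv

/-- The group `(D ⊗ 𝔸_f)ˣ`, `𝔸_f` the ring of finite adeles of `F`: the restricted product of the
groups `D_vˣ` with respect to the subgroups `DZ`. -/
def AG (q : QData F) : Type := GA q

instance (q : QData F) : Group (AG q) := (inferInstance : Group (GA q))

/-- The element of `(D ⊗ 𝔸_f)ˣ` given by a family. -/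
def AG.mk (g : Fam q) (h : AlmostInt g) : AG q := ⟨g, h⟩

/-- The component at `v` of an element of `(D ⊗ 𝔸_f)ˣ`. -/
def AG.comp (g : AG q) (v : Pl F) : LD q v := g.1 v

theorem loc_h1 (v : Pl F) (γ : DG q) : q.toV v γ.val * q.toV v γ⁻¹.val = 1 := by
  rw [← q.toV_mul, γ.mul_inv', q.toV_one]

theorem loc_h2 (v : Pl F) (γ : DG q) : q.toV v γ⁻¹.val * q.toV v γ.val = 1 := by
  rw [← q.toV_mul, γ.inv_mul', q.toV_one]

/-- The image of an element of `Dˣ` in `D_vˣ`. -/
def loc (v : Pl F) (γ : DG q) : LD q v :=
  LD.mk (q.toV v γ.val) (q.toV v γ⁻¹.val) (loc_h1 v γ) (loc_h2 v γ)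

theorem almostInt_loc (γ : DG q) : AlmostInt (q := q) (fun v => loc v γ) :=
  (CGQ.diag (𝒟 := CGQ.sysD q.old) γ).2

/-- The image of `γ` under the diagonal embedding `Dˣ → (D ⊗ 𝔸_f)ˣ`. -/
def diag (γ : DG q) : AG q := AG.mk (fun v => loc v γ) (almostInt_loc γ)

open Classical in
/-- The family with member `h` at `v` and `1` elsewhere. -/
def singleFam (v : Pl F) (h : LD q v) : Fam q := Pi.mulSingle (M := LD q) v h

theorem almostInt_single (v : Pl F) (h : LD q v) : AlmostInt (singleFam v h) :=
  (CGQ.single (𝒟 := CGQ.sysD q.old) v h).2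

/-- The element of `(D ⊗ 𝔸_f)ˣ` with component `h` at `v` and `1` elsewhere. -/
def single (v : Pl F) (h : LD q v) : AG q := AG.mk (singleFam v h) (almostInt_single v h)

/-- The real places of `F` at which `D` is split: `a` and `b` are not both negative. -/
def SPl (q : QData F) : Type := {w : InfinitePlace F // ∃ h : w.IsReal,
  ¬ (InfinitePlace.embedding_of_isReal h (q.a : F) < 0 ∧
    InfinitePlace.embedding_of_isReal h (q.b : F) < 0)}

/-- The embedding of `F` in `ℝ` given by such a place. -/
def SPl.emb (w : SPl q) : F →+* ℝ := InfinitePlace.embedding_of_isReal w.2.choose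

/-- The group `{1,-1}^(split real places)`, the set of the connected components of
`(D ⊗ ℝ)ˣ / A_∞° K_∞°`. -/
def Sg (q : QData F) : Type := SPl q → ℤˣ

instance (q : QData F) : Group (Sg q) := (inferInstance : Group (SPl q → ℤˣ))

/-- The action of `Dˣ` on this set: the signs of the reduced norm at the split real places. -/
def sgn (γ : DG q) : Sg q := fun w => if 0 < w.emb (QData.nrd γ.val) then 1 else -1

/-- The group `(D ⊗ ℚ_ℓ)ˣ`, the product of the groups `D_vˣ` over the places `v` above the
rational prime `ℓ`. -/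
def DL (q : QData F) (ℓ : Pr) : Type := ∀ v : PlAbove F ℓ, LD q v.1

instance (q : QData F) (ℓ : Pr) : Group (DL q ℓ) :=
  (inferInstance : Group (∀ v : PlAbove F ℓ, LD q v.1))

/-- The product topology. -/
instance (q : QData F) (ℓ : Pr) : TopologicalSpace (DL q ℓ) :=
  (inferInstance : TopologicalSpace (∀ v : PlAbove F ℓ, LD q v.1))

/-- The algebra `M₂(F_v)`. -/
def M2 (v : Pl F) : Type := Matrix (Fin 2) (Fin 2) (Fv v)

instance (v : Pl F) : Ring (M2 v) := (inferInstance : Ring (Matrix (Fin 2) (Fin 2) (Fv v)))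

instance (v : Pl F) : Algebra (Fv v) (M2 v) :=
  (inferInstance : Algebra (Fv v) (Matrix (Fin 2) (Fin 2) (Fv v)))

/-- The underlying matrix of an element of `GL₂(F_v)`. -/
def matL {v : Pl F} (g : LG v) : M2 v := Units.val g

theorem matL_mul_inv {v : Pl F} (g : LG v) : matL g * matL g⁻¹ = 1 := Units.mul_inv g

theorem matL_inv_mul {v : Pl F} (g : LG v) : matL g⁻¹ * matL g = 1 := Units.inv_mul g

/-- The element of `GL₂(F_v)` given by a matrix and its inverse. -/
def mkL {v : Pl F} (x y : M2 v) (h : x * y = 1) (h' : y * x = 1) : LG v := Units.mk x y h h'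

/-- The isomorphisms of algebras from `D_v` to `M₂(F_v)`. -/
def Iso (q : QData F) (v : Pl F) : Type := q.DV v ≃ₐ[Fv v] M2 v

/-- The value of an isomorphism. -/
def Iso.app {v : Pl F} (f : Iso q v) (x : q.DV v) : M2 v := Equiv.toFun (AlgEquiv.toEquiv f) x

/-- The value of the inverse isomorphism. -/
def Iso.invApp {v : Pl F} (f : Iso q v) (x : M2 v) : q.DV v :=
  Equiv.invFun (AlgEquiv.toEquiv f) x

theorem Iso.app_mul {v : Pl F} (f : Iso q v) (x y : q.DV v) :
    f.app (x * y) = f.app x * f.app y := AlgEquiv.map_mul' f x y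

theorem Iso.invApp_app {v : Pl F} (f : Iso q v) (x : q.DV v) : f.invApp (f.app x) = x :=
  Equiv.left_inv (AlgEquiv.toEquiv f) x

theorem Iso.app_invApp {v : Pl F} (f : Iso q v) (x : M2 v) : f.app (f.invApp x) = x :=
  Equiv.right_inv (AlgEquiv.toEquiv f) x

theorem Iso.app_one {v : Pl F} (f : Iso q v) : f.app 1 = 1 := by
  have h := f.app_mul 1 (f.invApp 1)
  rw [one_mul, f.app_invApp, mul_one] at h
  exact h.symm

theorem Iso.invApp_mul {v : Pl F} (f : Iso q v) (x y : M2 v) :
    f.invApp (x * y) = f.invApp x * f.invApp y := by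
  rw [← f.invApp_app (f.invApp x * f.invApp y), f.app_mul, f.app_invApp, f.app_invApp]

theorem Iso.invApp_one {v : Pl F} (f : Iso q v) : f.invApp 1 = 1 := by
  rw [← f.app_one, f.invApp_app]

theorem Iso.h1 {v : Pl F} (f : Iso q v) (g : LD q v) : f.app g.val * f.app g⁻¹.val = 1 := by
  rw [← f.app_mul, g.mul_inv', f.app_one]

theorem Iso.h2 {v : Pl F} (f : Iso q v) (g : LD q v) : f.app g⁻¹.val * f.app g.val = 1 := by
  rw [← f.app_mul, g.inv_mul', f.app_one]

theorem Iso.h3 {v : Pl F} (f : Iso q v) (g : LG v) :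
    f.invApp (matL g) * f.invApp (matL g⁻¹) = 1 := by
  rw [← f.invApp_mul, matL_mul_inv, f.invApp_one]

theorem Iso.h4 {v : Pl F} (f : Iso q v) (g : LG v) :
    f.invApp (matL g⁻¹) * f.invApp (matL g) = 1 := by
  rw [← f.invApp_mul, matL_inv_mul, f.invApp_one]

/-- The isomorphism `D_vˣ → GL₂(F_v)` given by an isomorphism of algebras. -/
def Iso.toLG {v : Pl F} (f : Iso q v) (g : LD q v) : LG v :=
  mkL (f.app g.val) (f.app g⁻¹.val) (f.h1 g) (f.h2 g)

/-- The inverse of this isomorphism. -/
def Iso.toLD {v : Pl F} (f : Iso q v) (g : LG v) : LD q v :=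
  LD.mk (f.invApp (matL g)) (f.invApp (matL g⁻¹)) (f.h3 g) (f.h4 g)

/-- A level: compact open subgroups `K_ℓ` of `(D ⊗ ℚ_ℓ)ˣ` for all rational primes `ℓ`, for almost
all `ℓ` the product of the groups `DZ` (so the product `K_f` of the `K_ℓ` is open), which are
hyperspecial for `ℓ` outside a finite set `S` of primes which contains `p`: there are
isomorphisms `φ_v` of the algebras `D_v` with `M₂(F_v)`, for the places `v` not above `S`, such
that `K_ℓ` is the preimage of the product of the groups `GL₂(O_v)`, for `ℓ` outside `S`. -/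
structure Level (q : QData F) (p : Pr) (S : Finset Pr) where
  /-- the local groups -/
  K : ∀ ℓ : Pr, Subgroup (DL q ℓ)
  isOpen : ∀ ℓ, IsOpen (K ℓ : Set (DL q ℓ))
  isCompact : ∀ ℓ, IsCompact (K ℓ : Set (DL q ℓ))
  almost : {ℓ : Pr | ¬ ∀ g : DL q ℓ, g ∈ K ℓ ↔ ∀ v, g v ∈ DZ q v.1}.Finite
  /-- the isomorphisms -/
  φ : ∀ v : Pl F, ¬ Ab S v → Iso q v
  off : ∀ ℓ, ℓ ∉ S → ∀ g : DL q ℓ,
    g ∈ K ℓ ↔ ∀ (v : PlAbove F ℓ) (hv : ¬ Ab S v.1), (φ v.1 hv).toLG (g v) ∈ GZ v.1
  mem : p ∈ S

variable {p : Pr} {S : Finset Pr}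

/-- The same level in the notation of `Pool.Agent.CGQ`. -/
def Level.old (L : Level q p S) : CGQ.LevelQ q.old p S :=
  ⟨L.K, L.isOpen, L.isCompact, L.almost, fun v => L.φ v.1 v.2, L.off, L.mem⟩

/-- The component at the rational prime `ℓ` of an element of `(D ⊗ 𝔸_f)ˣ`. -/
def AG.at (g : AG q) (ℓ : Pr) : DL q ℓ := fun v => g.comp v.1

/-- The element `g` of `(D ⊗ 𝔸_f)ˣ` is in `K_f` : all its components are in the groups `K_ℓ`. -/
def Level.InK (L : Level q p S) (g : AG q) : Prop := ∀ ℓ, g.at ℓ ∈ L.K ℓ

theorem Level.inK_mul (L : Level q p S) {a b : AG q} (ha : L.InK a) (hb : L.InK b) :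
    L.InK (a * b) := fun ℓ => (L.K ℓ).mul_mem (ha ℓ) (hb ℓ)

theorem Level.inK_one (L : Level q p S) : L.InK 1 := fun ℓ => (L.K ℓ).one_mem

theorem Level.inK_inv (L : Level q p S) {a : AG q} (ha : L.InK a) : L.InK a⁻¹ :=
  fun ℓ => (L.K ℓ).inv_mem (ha ℓ)

/-- The group `K_f`, a subgroup of `(D ⊗ 𝔸_f)ˣ`. -/
def Level.Kf (L : Level q p S) : Subgroup (AG q) where
  carrier := {k | L.InK k}
  mul_mem' := L.inK_mul
  one_mem' := L.inK_one
  inv_mem' := L.inK_inv

/-- The group `K_p`. -/
def Level.Kp (L : Level q p S) : Type := L.K p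

instance (L : Level q p S) : Group L.Kp := (inferInstance : Group (L.K p))

/-- The inclusion of `K_p` in `(D ⊗ ℚ_p)ˣ`. -/
def Level.val (L : Level q p S) (k : L.Kp) : DL q p := k.1

/-- The component at `p` of an element of `K_f`. -/
def Level.atp (L : Level q p S) (k : L.Kf) : L.Kp := ⟨k.1.at p, k.2 p⟩

/-- The groups `Dˣ ∩ g K_f g⁻¹` are torsion free, for all `g` in `(D ⊗ 𝔸_f)ˣ`.
This holds when `K_f` is neat. -/
def Level.TorsionFree (L : Level q p S) : Prop :=
  ∀ (g : AG q) (γ : DG q) (n : ℕ), 0 < n → g⁻¹ * diag γ * g ∈ L.Kf → γ ^ n = 1 → γ = 1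

/-- The representations of `K_p` on the `O`-module `W`. -/
def Coef (L : Level q p S) (O W : Type) [CommRing O] [AddCommGroup W] [Module O W] : Type :=
  Representation O L.Kp W

variable {O : Type} [CommRing O] {W : Type} [AddCommGroup W] [Module O W]

/-- The action of `K_p` on `W`. -/
def Coef.app {L : Level q p S} (σ : Coef L O W) (k : L.Kp) (w : W) : W :=
  (show Representation O L.Kp W from σ) k w

/-- The functions on `{1,-1}^(split real places) × (D ⊗ 𝔸_f)ˣ` with values in `W`. -/
def Fn (q : QData F) (W : Type) : Type := Sg q × AG q → W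

instance (W : Type) [AddCommGroup W] : AddCommGroup (Fn q W) :=
  (inferInstance : AddCommGroup (Sg q × AG q → W))

instance (O : Type) [CommRing O] (W : Type) [AddCommGroup W] [Module O W] : Module O (Fn q W) :=
  (inferInstance : Module O (Sg q × AG q → W))

/-- The condition `f (x, g k) = k_p⁻¹ f (x, g)` for all `k` in `K_f`; here `σ` is the action of
`K_p` on `W`. -/
def IsForm (L : Level q p S) (σ : Coef L O W) (f : Fn q W) : Prop :=
  ∀ (y : Sg q × AG q) (k : L.Kf), f (y.1, y.2 * k) = σ.app (L.atp k)⁻¹ (f y)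

theorem isForm_add (L : Level q p S) (σ : Coef L O W) {a b : Fn q W}
    (ha : IsForm L σ a) (hb : IsForm L σ b) : IsForm L σ (a + b) :=
  (CGQ.Forms (O := O) (W := W) L.old.Kf (L.old.rep σ)).add_mem' ha hb

theorem isForm_zero (L : Level q p S) (σ : Coef L O W) :
    IsForm L σ (0 : Fn q W) :=
  (CGQ.Forms (O := O) (W := W) L.old.Kf (L.old.rep σ)).zero_mem'

theorem isForm_smul (L : Level q p S) (σ : Coef L O W) (c : O) {a : Fn q W}
    (ha : IsForm L σ a) : IsForm L σ (c • a) :=
  (CGQ.Forms (O := O) (W := W) L.old.Kf (L.old.rep σ)).smul_mem' c ha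

/-- The submodule of the functions with this property. -/
def FormsSub (L : Level q p S) (σ : Coef L O W) : Submodule O (Fn q W) where
  carrier := {f | IsForm L σ f}
  add_mem' := isForm_add L σ
  zero_mem' := isForm_zero L σ
  smul_mem' := isForm_smul L σ

/-- The module of all functions `f` on `{1,-1}^(split real places) × (D ⊗ 𝔸_f)ˣ` with values in
`W` such that `f (x, g k) = k_p⁻¹ f (x, g)` for all `k` in `K_f`. -/
def Forms (L : Level q p S) (σ : Coef L O W) : Type := FormsSub L σ

instance (L : Level q p S) (σ : Coef L O W) : AddCommGroup (Forms L σ) :=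
  (inferInstance : AddCommGroup (FormsSub L σ))

instance (L : Level q p S) (σ : Coef L O W) : Module O (Forms L σ) :=
  (inferInstance : Module O (FormsSub L σ))

/-- The element of `Forms` given by a function. -/
def Forms.mk (L : Level q p S) (σ : Coef L O W) (f : Fn q W) (h : IsForm L σ f) :
    Forms L σ := ⟨f, h⟩

/-- The function underlying an element of `Forms`. -/
def Forms.fn {L : Level q p S} {σ : Coef L O W} (f : Forms L σ) : Fn q W := f.1

theorem Forms.isForm {L : Level q p S} {σ : Coef L O W} (f : Forms L σ) :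
    IsForm L σ f.fn := f.2

/-- The translate `(x, g) ↦ f (γ⁻¹ x, γ⁻¹ g)` of a function. -/
def translate (γ : DG q) (f : Fn q W) : Fn q W := fun y => f (sgn γ⁻¹ * y.1, diag γ⁻¹ * y.2)

theorem translate_isForm (L : Level q p S) (σ : Coef L O W) (γ : DG q)
    (f : Forms L σ) : IsForm L σ (translate γ f.fn) :=
  (CGQ.formsRep (O := O) (W := W) L.old.Kf (L.old.rep σ) γ f).2

/-- The translate of an element of `Forms`. -/
def actFun (L : Level q p S) (σ : Coef L O W) (γ : DG q) (f : Forms L σ) :
    Forms L σ := Forms.mk L σ (translate γ f.fn) (translate_isForm L σ γ f)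

/-- The map `a` is `O`-linear. -/
def IsLin {L : Level q p S} {σ : Coef L O W} (a : Forms L σ → Forms L σ) : Prop :=
  IsLinearMap O a

theorem actFun_isLin (L : Level q p S) (σ : Coef L O W) (γ : DG q) : IsLin (actFun L σ γ) :=
  ⟨fun _ _ => rfl, fun _ _ => rfl⟩

/-- The endomorphisms of the `O`-module `Forms`. -/
def FEnd (L : Level q p S) (σ : Coef L O W) : Type := Module.End O (Forms L σ)

instance (L : Level q p S) (σ : Coef L O W) : Monoid (FEnd L σ) :=
  (inferInstance : Monoid (Module.End O (Forms L σ)))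

/-- The endomorphism given by a linear map. -/
def FEnd.mk {L : Level q p S} {σ : Coef L O W} (a : Forms L σ → Forms L σ) (h : IsLin a) :
    FEnd L σ := IsLinearMap.mk' a h

/-- The translation by `γ` as a linear map. -/
def actLin (L : Level q p S) (σ : Coef L O W) (γ : DG q) : FEnd L σ :=
  FEnd.mk (actFun L σ γ) (actFun_isLin L σ γ)

theorem actLin_one (L : Level q p S) (σ : Coef L O W) : actLin L σ 1 = 1 :=
  (CGQ.formsRep (O := O) (W := W) L.old.Kf (L.old.rep σ)).map_one'

theorem actLin_mul (L : Level q p S) (σ : Coef L O W) (a b : DG q) :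
    actLin L σ (a * b) = actLin L σ a * actLin L σ b :=
  (CGQ.formsRep (O := O) (W := W) L.old.Kf (L.old.rep σ)).map_mul' a b

/-- The action of `Dˣ` on `Forms`: `(γ f)(x, g) = f (γ⁻¹ x, γ⁻¹ g)`. -/
def formsHom (L : Level q p S) (σ : Coef L O W) : DG q →* FEnd L σ where
  toFun := actLin L σ
  map_one' := actLin_one L σ
  map_mul' := actLin_mul L σ

/-- The action of `Dˣ` on `Forms` as a representation. -/
def formsRep (L : Level q p S) (σ : Coef L O W) : Representation O (DG q) (Forms L σ) :=
  formsHom L σ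

/-- The `Dˣ`-module whose cohomology is the cohomology of `Y(K_f)` with coefficients in the
local system attached to `W`. -/
def coeff (L : Level q p S) (σ : Coef L O W) : Rep O (DG q) := Rep.of (formsRep L σ)

/-- The cohomology group `Hⁱ(Y(K_f), W)` : the group cohomology of the `Dˣ`-module
`coeff L σ`. -/
def H (L : Level q p S) (σ : Coef L O W) (i : ℕ) : Type :=
  groupCohomology (coeff L σ) i

instance (L : Level q p S) (σ : Coef L O W) (i : ℕ) : AddCommGroup (H L σ i) :=
  (inferInstance : AddCommGroup (groupCohomology (coeff L σ) i))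

instance (L : Level q p S) (σ : Coef L O W) (i : ℕ) : Module O (H L σ i) :=
  (inferInstance : Module O (groupCohomology (coeff L σ) i))

end Pool.Agent.CGQF
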