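import Pool.Agent.CGQF.Comm

/-!
# The Hecke algebra, its action on cohomology, and attached Galois representations
-/

noncomputable section

namespace Pool.Agent.CGQF

open CategoryTheory NumberField
open scoped IsMulCommutative
open Pool.Agent.CG2F (Pr Pl Above Fv Ov LG GZ PlAbove Ab Idx HeckeAlg cosets cosets_finite GalF
  Zbar Over IsInertia IsFrob Nm pol r1 r2)

variable {F : Type} [Field F] [NumberField F] {q : QData F} {p : Pr} {S : Finset Pr}
variable {O : Type} [CommRing O] {W : Type} [AddCommGroup W] [Module O W]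

/-- The unique homomorphism of algebras from the Hecke algebra to the algebra of endomorphisms of
`Hⁱ(Y(K_f), W)` which maps the generators to the Hecke operators. -/
def actHom (L : Level q p S) (σ : Coef L O W) (i : ℕ) : HeckeAlg F S O →ₐ[O] EndH L σ i :=
  (exists_actHom L σ i).choose

/-- The action of the element `t` of the Hecke algebra on `Hⁱ(Y(K_f), W)`. -/
def act (L : Level q p S) (σ : Coef L O W) (i : ℕ) (t : HeckeAlg F S O) :
    EndH L σ i := actHom L σ i t

/-- The localisation of `Hⁱ(Y(K_f), W)` at the prime ideal `m` of the Hecke algebra is not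
zero. -/
def InSupport (L : Level q p S) (σ : Coef L O W) (i : ℕ)
    (m : Ideal (HeckeAlg F S O)) : Prop :=
  ∃ h : H L σ i, ∀ t : HeckeAlg F S O, t ∉ m → (act L σ i t).app h ≠ 0

/-- The action of `K_p` on `W` is continuous for the `𝔪`-adic topology of `W`, `𝔪` the maximal
ideal of `O`. -/
def IsContinuousRep [IsLocalRing O] (L : Level q p S) (σ : Coef L O W) : Prop :=
  ∀ n : ℕ, ∃ U : Set (DL q p), IsOpen U ∧ 1 ∈ U ∧ ∀ k : L.Kp, L.val k ∈ U →
    ∀ w : W, σ.app k w - w ∈ (IsLocalRing.maximalIdeal O ^ n • ⊤ : Submodule O W)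

/-- The residue ring of the ideal `m` of the Hecke algebra. -/
def Res (m : Ideal (HeckeAlg F S O)) : Type := HeckeAlg F S O ⧸ m

instance (m : Ideal (HeckeAlg F S O)) : CommRing (Res m) :=
  (inferInstance : CommRing (HeckeAlg F S O ⧸ m))

/-- The residue class of an element. -/
def Res.mk (m : Ideal (HeckeAlg F S O)) (x : HeckeAlg F S O) : Res m := Ideal.Quotient.mk m x

/-- The image in `k` of the generator of the Hecke algebra attached to `t`, where `k` is a field
extension of the residue field of the maximal ideal `m` of the Hecke algebra. -/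
def eig (m : Ideal (HeckeAlg F S O)) (k : Type) [Field k] [Algebra (Res m) k]
    (t : Idx F S) : k := algebraMap (Res m) k (Res.mk m (Pool.Agent.CG2F.HeckeAlg.T O t))

/-- The two-dimensional representations over `k` of the absolute Galois group of `F`. -/
def GRep (F : Type) [Field F] (k : Type) [Field k] : Type := GalF F →* GL (Fin 2) k

/-- The matrix of `ρ(σ)`. -/
def GRep.mat {k : Type} [Field k] (ρ : GRep F k) (σ : GalF F) : Matrix (Fin 2) (Fin 2) k :=
  Units.val ((show GalF F →* GL (Fin 2) k from ρ) σ)

/-- `σ` is in the kernel of `ρ`. -/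
def GRep.Ker {k : Type} [Field k] (ρ : GRep F k) (σ : GalF F) : Prop :=
  (show GalF F →* GL (Fin 2) k from ρ) σ = 1

/-- The characters of the absolute Galois group of `F` with values in `k`. -/
def GChar (F : Type) [Field F] (k : Type) [Field k] : Type := GalF F →* kˣ

/-- The value of the character `ω` at `σ`. -/
def GChar.val {k : Type} [Field k] (ω : GChar F k) (σ : GalF F) : k :=
  Units.val ((show GalF F →* kˣ from ω) σ)

/-- The representation `ρ` of the absolute Galois group of `F` is attached to the maximal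
ideal `m` of the Hecke algebra: it is continuous, unramified outside `S`, and the characteristic
polynomial of (arithmetic, `e = 1`, or geometric, `e = -1`) Frobenius elements `σ` at `v` not
above `S` is given by the Hecke eigenvalues through the Satake isomorphism:
`X² - T_v X + (N v) R_v`, up to a twist by a continuous character `ω`. -/
def Attached (m : Ideal (HeckeAlg F S O)) (k : Type) [Field k] [Algebra (Res m) k]
    (ρ : GRep F k) : Prop :=
  IsOpen {σ : GalF F | ρ.Ker σ} ∧
  ∃ (e : ℤˣ) (ω : GChar F k), IsOpen {σ : GalF F | ω.val σ = 1} ∧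
    ∀ (v : Pl F) (hv : ¬ Ab S v) (Q : Ideal (Zbar F)), Over v Q →
      (∀ σ : GalF F, IsInertia Q σ → ρ.Ker σ) ∧
      (∀ σ : GalF F, IsFrob v Q σ →
        (ρ.mat (σ ^ (e : ℤ))).charpoly =
          pol (ω.val σ * eig m k (Idx.mk v hv 0))
            (ω.val σ ^ 2 * ((Nm v : ℕ) : k) * eig m k (Idx.mk v hv 1)))

/-- The space of vectors. -/
def Vec (k : Type) : Type := Fin 2 → k

instance (k : Type) [Field k] : AddCommGroup (Vec k) := (inferInstance : AddCommGroup (Fin 2 → k))

instance (k : Type) [Field k] : Module k (Vec k) := (inferInstance : Module k (Fin 2 → k))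

/-- The action of `g` through `ρ` on the vectors over an extension `k'` of `k`. -/
def GRep.act {k : Type} [Field k] (ρ : GRep F k) (k' : Type) [Field k'] [Algebra k k']
    (g : GalF F) (v : Vec k') : Vec k' := ((ρ.mat g).map (algebraMap k k')).mulVec v

/-- `ρ` does not factor through a proper parabolic subgroup of `GL₂`, after any finite extension
of the field `k`: over no finite extension is there a stable subspace other than `0` and the
whole space. -/
def NonEisenstein {k : Type} [Field k] (ρ : GRep F k) : Prop :=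
  ∀ (k' : Type) [Field k'] [Algebra k k'], Module.Finite k k' →
    ∀ V : Submodule k' (Vec k'), (∀ g : GalF F, ∀ v ∈ V, ρ.act k' g v ∈ V) → V = ⊥ ∨ V = ⊤

/-- The number of real places of `F` at which `D` is split. -/
def sp (q : QData F) : ℕ := Nat.card (SPl q)

/-- The real dimension of `(D ⊗ ℝ)ˣ = GL₂(ℝ)^a × (ℍˣ)^b × GL₂(ℂ)^c`, where `a = sp q`,
`a + b = r1 F`, `c = r2 F`, minus that of `A_∞ K_∞ = ℝ_{>0} × SO(2)^a × SU(2)^b × U(2)^c`: the
dimension of `Y(K_f)`. -/
def dY (q : QData F) : ℤ :=
  (4 * r1 F + 8 * r2 F : ℤ) - (1 + sp q + 3 * (r1 F - sp q) + 4 * r2 F)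

/-- The difference of the ranks of `(D ⊗ ℝ)ˣ` and of `A_∞ K_∞`. -/
def ell0 (q : QData F) : ℤ :=
  (2 * r1 F + 4 * r2 F : ℤ) - (1 + sp q + (r1 F - sp q) + 2 * r2 F)

/-- `q₀ = (d_Y - ℓ₀) / 2`. -/
def q0 (q : QData F) : ℤ := (dY q - ell0 q) / 2

end Pool.Agent.CGQF
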