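import Pool.Agent.CGQF.Defs
import Pool.Agent.CGQ.SysHecke

/-!
# The Hecke operators
-/

noncomputable section

namespace Pool.Agent.CGQF

open CategoryTheory NumberField
open scoped IsMulCommutative
open Pool.Agent.CG2F (Pr Pl Above Fv Ov LG GZ PlAbove Ab Idx HeckeAlg cosets cosets_finite)

variable {F : Type} [Field F] [NumberField F] {q : QData F} {p : Pr} {S : Finset Pr}
variable {O : Type} [CommRing O] {W : Type} [AddCommGroup W] [Module O W]

/-- The isomorphism of algebras `D_v → M₂(F_v)` of the level for the place `v` of the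
index `t`. -/
def Level.iso (L : Level q p S) (t : Idx F S) : Iso q t.pl := L.φ t.pl t.1.2

/-- The sum over the cosets in the definition of the Hecke operators. -/
def heckeSum (L : Level q p S) (t : Idx F S) (f : Fn q W) : Fn q W :=
  fun y => ∑ c ∈ (cosets_finite t.pl t.j).toFinset,
    f (y.1, y.2 * single t.pl ((L.iso t).toLD (Quotient.out c)))

theorem heckeSum_isForm (L : Level q p S) (σ : Coef L O W) (t : Idx F S)
    (f : Forms L σ) : IsForm L σ (heckeSum L t f.fn) :=
  (CGQ.heckeLin (O := O) (W := W) L.old.Kf (L.old.rep σ) (L.old.unram σ) t f).2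

/-- The Hecke operator attached to `t` on `Forms`. -/
def heckeFun (L : Level q p S) (σ : Coef L O W) (t : Idx F S) (f : Forms L σ) :
    Forms L σ := Forms.mk L σ (heckeSum L t f.fn) (heckeSum_isForm L σ t f)

theorem heckeFun_isLin (L : Level q p S) (σ : Coef L O W) (t : Idx F S) :
    IsLin (heckeFun L σ t) :=
  ⟨(CGQ.heckeLin (O := O) (W := W) L.old.Kf (L.old.rep σ) (L.old.unram σ) t).map_add',
    (CGQ.heckeLin (O := O) (W := W) L.old.Kf (L.old.rep σ) (L.old.unram σ) t).map_smul'⟩

/-- The Hecke operator attached to `t` as an endomorphism of the `O`-module `Forms`. -/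
def heckeLin (L : Level q p S) (σ : Coef L O W) (t : Idx F S) : FEnd L σ :=
  FEnd.mk (heckeFun L σ t) (heckeFun_isLin L σ t)

theorem heckeLin_equivariant (L : Level q p S) (σ : Coef L O W) (t : Idx F S)
    (γ : DG q) : heckeLin L σ t * actLin L σ γ = actLin L σ γ * heckeLin L σ t :=
  (CGQ.heckeHom (O := O) (W := W) L.old.Kf (L.old.rep σ) (L.old.unram σ) t).hom.isIntertwining' γ

/-- The Hecke operator attached to `t` as an endomorphism of the representation `coeff L σ`. -/
def heckeHom (L : Level q p S) (σ : Coef L O W) (t : Idx F S) :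
    coeff L σ ⟶ coeff L σ :=
  Rep.ofHom
    { toLinearMap := heckeLin L σ t
      isIntertwining' := heckeLin_equivariant L σ t }

/-- The algebra of endomorphisms of `Hⁱ(Y(K_f), W)`. -/
def EndH (L : Level q p S) (σ : Coef L O W) (i : ℕ) : Type := Module.End O (H L σ i)

instance (L : Level q p S) (σ : Coef L O W) (i : ℕ) : Ring (EndH L σ i) :=
  (inferInstance : Ring (Module.End O (H L σ i)))

instance (L : Level q p S) (σ : Coef L O W) (i : ℕ) : Algebra O (EndH L σ i) :=
  (inferInstance : Algebra O (Module.End O (H L σ i)))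

/-- The value of an endomorphism of `Hⁱ(Y(K_f), W)`. -/
def EndH.app {L : Level q p S} {σ : Coef L O W} {i : ℕ} (a : EndH L σ i)
    (h : H L σ i) : H L σ i := (show Module.End O (H L σ i) from a) h

/-- The Hecke operator attached to `t` on the cohomology group `Hⁱ(Y(K_f), W)`. -/
def heckeCoh (L : Level q p S) (σ : Coef L O W) (i : ℕ) (t : Idx F S) : EndH L σ i :=
  ((groupCohomology.functor O (DG q) i).map (heckeHom L σ t)).hom

end Pool.Agent.CGQF
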