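import Pool.Agent.CGQF.Hecke
import Pool.Agent.CGQ.MainQ

/-!
# Comparison of the two versions of the definitions
-/

noncomputable section

namespace Pool.Agent.CGQF

open CategoryTheory NumberField
open scoped IsMulCommutative
open Pool.Agent.CG2F (Pr Pl Above Fv Ov LG GZ PlAbove Ab Idx HeckeAlg cosets cosets_finite GalF
  Zbar Over IsInertia IsFrob Nm pol r1 r2)

variable {F : Type} [Field F] [NumberField F] {q : QData F} {p : Pr} {S : Finset Pr}
variable {O : Type} [CommRing O] {W : Type} [AddCommGroup W] [Module O W]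

/-- A common form of `InSupport`. -/
def GenSupp {G : Type} [Group G] (A : Rep O G) {I : Type} (f : I → (A ⟶ A)) (i : ℕ)
    (m : Ideal (MvPolynomial I O)) : Prop :=
  ∃ (h : groupCohomology A i) (Φ : MvPolynomial I O →ₐ[O] Module.End O (groupCohomology A i)),
    (∀ t, Φ (MvPolynomial.X t) = ((groupCohomology.functor O G i).map (f t)).hom) ∧
    ∀ t, t ∉ m → Φ t h ≠ 0

theorem genSupp_of (L : Level q p S) (σ : Coef L O W) (i : ℕ)
    (m : Ideal (HeckeAlg F S O)) (h : InSupport L σ i m) :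
    GenSupp (coeff L σ) (heckeHom L σ) i m := by
  obtain ⟨x, hx⟩ := h
  exact ⟨x, actHom L σ i, (exists_actHom L σ i).choose_spec.1, hx⟩

theorem of_genSupp {𝒟 : CGQ.Sys F} (K : Subgroup 𝒟.A) {T : Set (CG2.Pl F)} {Φ : CGQ.Chart 𝒟 T}
    (τ : Representation O K W) (hU : CGQ.UnramOff K τ Φ) (i : ℕ)
    (m : Ideal (CGQ.HeckeAlg T O)) (h : GenSupp (CGQ.coeff K τ) (CGQ.heckeHom K τ hU) i m) :
    CGQ.InSupport K τ hU i m := by
  obtain ⟨x, Φ, h1, h2⟩ := h
  have h3 : Φ = CGQ.hact K τ hU i := by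
    apply MvPolynomial.algHom_ext
    intro t
    rw [h1, CGQ.hact_X]
    rfl
  rw [h3] at h2
  exact ⟨x, h2⟩

theorem genSupp_eq (L : Level q p S) (σ : Coef L O W) (i : ℕ)
    (m : Ideal (HeckeAlg F S O)) :
    GenSupp (coeff L σ) (heckeHom L σ) i m =
      GenSupp (CGQ.coeff (O := O) (W := W) L.old.Kf (L.old.rep σ))
        (CGQ.heckeHom (O := O) (W := W) L.old.Kf (L.old.rep σ) (L.old.unram σ)) i m :=
  rfl

theorem inSupport_old (L : Level q p S) (σ : Coef L O W) (i : ℕ)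
    (m : Ideal (HeckeAlg F S O)) (h : InSupport L σ i m) :
    CGQ.InSupport (O := O) (W := W) L.old.Kf (L.old.rep σ) (L.old.unram σ) i m := by
  apply of_genSupp
  rw [← genSupp_eq]
  exact genSupp_of L σ i m h

theorem torsionFree_old (L : Level q p S) (h : L.TorsionFree) : CGQ.TorsionFree L.old.Kf := h

theorem isContinuousRep_old [IsLocalRing O] (L : Level q p S) (σ : Coef L O W)
    (h : IsContinuousRep L σ) : CGQ.IsContinuousRepQ (O := O) (W := W) L.old σ := h

/-- The algebra structure for the old form of the Hecke algebra. -/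
@[reducible] def algOld (m : Ideal (HeckeAlg F S O)) (k : Type) [Field k]
    [inst : Algebra (Res m) k] :
    Algebra (CGQ.HeckeAlg (CG2.ab F S) O ⧸ (m : Ideal (CGQ.HeckeAlg (CG2.ab F S) O))) k := inst

theorem nonEisenstein_old {k : Type} [Field k] (ρ : GRep F k)
    (h : NonEisenstein ρ) : CG2.NonEisenstein (F := F) (k := k) ρ := h

theorem attached_old (m : Ideal (HeckeAlg F S O)) (k : Type) [Field k]
    [Algebra (Res m) k] (ρ : GRep F k) (h : Attached m k ρ) :
    @CGQ.AttachedQ F _ _ (CG2.ab F S) O _ m k _ (algOld m k) ρ := by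
  obtain ⟨h1, e, ω, h2, h3⟩ := h
  refine ⟨?_, e, ω, ?_, h3⟩
  · have h4 : ((MonoidHom.ker (G := CG2.GalF F) (M := GL (Fin 2) k) ρ : Subgroup (CG2.GalF F)) :
        Set (CG2.GalF F)) = {σ : GalF F | ρ.Ker σ} := rfl
    rw [h4]
    exact h1
  · have h4 : ((MonoidHom.ker (G := CG2.GalF F) (M := kˣ) ω : Subgroup (CG2.GalF F)) :
        Set (CG2.GalF F)) = {σ : GalF F | ω.val σ = 1} := by
      ext σ
      exact (Units.val_eq_one (a := (show GalF F →* kˣ from ω) σ)).symm
    rw [h4]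
    exact h2

theorem card_le (q : QData F) : sp q ≤ r1 F := by
  classical
  have h1 : sp q = Nat.card {w : InfinitePlace F // ∃ h : w.IsReal,
    ¬ (InfinitePlace.embedding_of_isReal h (q.a : F) < 0 ∧
      InfinitePlace.embedding_of_isReal h (q.b : F) < 0)} := rfl
  have h2 : r1 F = Nat.card {w : InfinitePlace F // w.IsReal} := by
    change InfinitePlace.nrRealPlaces F = _
    rw [InfinitePlace.nrRealPlaces, Nat.card_eq_fintype_card]
  rw [h1, h2]
  exact Nat.card_le_card_of_injective (fun w => ⟨w.1, w.2.choose⟩)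
    (fun w w' h => Subtype.ext (congrArg (fun x : {w : InfinitePlace F // w.IsReal} => x.1) h))

theorem main_two (q : QData F) (h : 1 ≤ sp q + r2 F) (i : ℕ)
    (hi : min 2 (sp q + r2 F) ≤ i ∧ i + min 2 (sp q + r2 F) ≤ CGQ.dimQ q.old) :
    (1 ≤ i ∧ (i : ℤ) ≤ dY q - 1) ∧
    (2 ≤ sp q + r2 F → 2 ≤ i ∧ (i : ℤ) ≤ dY q - 2) ∧
    (sp q + r2 F ≤ 2 → q0 q ≤ i ∧ (i : ℤ) ≤ q0 q + ell0 q) := by
  have h1 := card_le q
  have h2 : CGQ.dimQ q.old = 3 * sp q + (r1 F - sp q) + 4 * r2 F - 1 := rfl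
  rw [h2] at hi
  unfold q0 dY ell0
  omega

theorem isDivision_old (q : QData F) (h : q.IsDivision) :
    ∀ x : CGQ.DF q.old, x ≠ 0 → IsUnit x := by
  intro x hx
  obtain ⟨y, hy⟩ := h x hx
  change CGQ.DF q.old at y
  replace hy : x * y = 1 := hy
  have hy0 : y ≠ 0 := by
    rintro rfl
    rw [mul_zero] at hy
    exact zero_ne_one hy
  obtain ⟨z, hz⟩ := h y hy0
  change CGQ.DF q.old at z
  replace hz : y * z = 1 := hz
  have h1 : x = z := by
    rw [← mul_one x, ← hz, ← mul_assoc, hy, one_mul]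
  rw [h1] at hy ⊢
  exact ⟨⟨z, y, hy, hz⟩, rfl⟩

/-- The vanishing theorem for quaternion division algebras which are split at an archimedean
place. -/
theorem main (F : Type) [Field F] [NumberField F] (q : QData F) (hD : q.IsDivision)
    (hq : 1 ≤ sp q + r2 F) (p : Pr) (S : Finset Pr) (L : Level q p S) (hTF : L.TorsionFree)
    (O : Type) [CommRing O] [IsDomain O] [IsDiscreteValuationRing O]
    (hpO : ((p : ℕ) : O) ∈ IsLocalRing.maximalIdeal O)
    (W : Type) [AddCommGroup W] [Module O W] [Module.Finite O W]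
    (σ : Coef L O W) (hσ : IsContinuousRep L σ)
    (m : Ideal (HeckeAlg F S O)) [hmax : m.IsMaximal]
    (k : Type) [Field k] [Algebra (Res m) k] (ρ : GRep F k) (hatt : Attached m k ρ) (hne : NonEisenstein ρ)
    (i : ℕ) (hm : InSupport L σ i m) :
    (1 ≤ i ∧ (i : ℤ) ≤ dY q - 1) ∧
    (2 ≤ sp q + r2 F → 2 ≤ i ∧ (i : ℤ) ≤ dY q - 2) ∧
    (sp q + r2 F ≤ 2 → q0 q ≤ i ∧ (i : ℤ) ≤ q0 q + ell0 q) := by
  have hp : Fact (p : ℕ).Prime := ⟨p.2⟩
  have hchar : CharP (IsLocalRing.ResidueField O) (p : ℕ) := by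
    have h1 : ((p : ℕ) : IsLocalRing.ResidueField O) = 0 := by
      rw [← map_natCast (IsLocalRing.residue O)]
      exact Ideal.Quotient.eq_zero_iff_mem.2 hpO
    exact (CharP.charP_iff_prime_eq_zero p.2).2 h1
  refine main_two q hq i ?_
  have hSf : (CG2.ab F S).Finite := by
    have : CG2.ab F S = ⋃ ℓ ∈ S, {v : CG2.Pl F | CG2.Above (ℓ : ℕ) v} := by
      ext v; simp [CG2.ab]
    rw [this]
    exact Set.Finite.biUnion S.finite_toSet fun ℓ _ => CG2.LevelOC_fin ℓ
  exact @CGQ.main_all F _ _ q.old (isDivision_old q hD) hq p hp (CG2.ab F S) hSf (fun v hv => ⟨p, L.mem, hv⟩)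
    L.old.φ L.old.Kf L.old.oc (torsionFree_old L hTF) L.old.hyp O _ _ _ hchar W _ _ _
    (L.old.rep σ) (L.old.unram σ) (L.old.cont σ (isContinuousRep_old L σ hσ)) m hmax k _
    (algOld m k) ρ (attached_old m k ρ hatt) (nonEisenstein_old ρ hne) i
    (inSupport_old L σ i m hm)

end Pool.Agent.CGQF
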